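import Pool.Agent.Work.MP_8329b3_an.Seq

/-!
# MP_8329b3_an: a Lipschitz-free space that is not isomorphic to its countable `ℓ₁`-sum

`Lip0 M x₀` is the Banach space of the Lipschitz functions on `M` that vanish at the base point,
with the best Lipschitz constant as norm; `LipFree M x₀` is the closed linear span of the
evaluations `δ_x` in the dual space `Lip0 M x₀ →L[ℝ] ℝ`.

There is a countable metric space `M`, in which different points have distance at least `1`, such
that for every base point the `ℓ₁`-sum of countably many copies of `F(M)` is not isomorphic to `F(M)`,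
not even to a complemented subspace of `F(M)`.
-/

set_option autoImplicit false

namespace Pool.Agent.Results.MP_8329b3_an.UniformlyDiscrete

open scoped NNReal

section defs

variable (M : Type) [MetricSpace M] (x₀ : M)

/-- the vector space of all Lipschitz functions `f : M → ℝ` with `f x₀ = 0` -/
def lip0 : Submodule ℝ (M → ℝ) where
  carrier := {f | f x₀ = 0 ∧ ∃ K : ℝ≥0, LipschitzWith K f}
  zero_mem' := ⟨rfl, 0, LipschitzWith.const 0⟩
  add_mem' := by
    rintro f g ⟨hf0, K, hf⟩ ⟨hg0, L, hg⟩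
    exact ⟨by simp [hf0, hg0], K + L, hf.add hg⟩
  smul_mem' := by
    rintro c f ⟨hf0, K, hf⟩
    refine ⟨by simp [hf0], ‖c‖₊ * K, LipschitzWith.of_dist_le_mul fun x y => ?_⟩
    have h := hf.dist_le_mul x y
    rw [Pi.smul_apply, Pi.smul_apply, dist_smul₀, NNReal.coe_mul, coe_nnnorm, mul_assoc]
    exact mul_le_mul_of_nonneg_left h (norm_nonneg c)

/-- the space `Lip₀(M)` -/
def Lip0 : Type := ↥(lip0 M x₀)

noncomputable instance : AddCommGroup (Lip0 M x₀) := (lip0 M x₀).addCommGroup
noncomputable instance : Module ℝ (Lip0 M x₀) := (lip0 M x₀).module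

variable {M x₀}

/-- the function underlying an element of `Lip₀(M)` -/
def Lip0.fn (f : Lip0 M x₀) : M → ℝ := (show ↥(lip0 M x₀) from f).1

/-- the norm of `Lip₀(M)` is the best Lipschitz constant `sup_{x ≠ y} |f x - f y| / d(x, y)` -/
noncomputable instance : Norm (Lip0 M x₀) :=
  ⟨fun f => ⨆ p : M × M, |f.fn p.1 - f.fn p.2| / dist p.1 p.2⟩

theorem fn_add (f g : Lip0 M x₀) (x : M) : (f + g).fn x = f.fn x + g.fn x := rfl
theorem fn_smul (c : ℝ) (f : Lip0 M x₀) (x : M) : (c • f).fn x = c * f.fn x := rfl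
theorem fn_zero (x : M) : (0 : Lip0 M x₀).fn x = 0 := rfl
theorem fn_base (f : Lip0 M x₀) : f.fn x₀ = 0 := (show ↥(lip0 M x₀) from f).2.1
theorem fn_lip (f : Lip0 M x₀) : ∃ K : ℝ≥0, LipschitzWith K f.fn := (show ↥(lip0 M x₀) from f).2.2
theorem fn_ext {f g : Lip0 M x₀} (h : ∀ x, f.fn x = g.fn x) : f = g := Subtype.ext (funext h)

theorem norm_def (f : Lip0 M x₀) : ‖f‖ = ⨆ p : M × M, |f.fn p.1 - f.fn p.2| / dist p.1 p.2 := rfl

theorem bdd (f : Lip0 M x₀) : BddAbove (Set.range fun p : M × M =>
    |f.fn p.1 - f.fn p.2| / dist p.1 p.2) := by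
  obtain ⟨K, hK⟩ := fn_lip f
  refine ⟨K, ?_⟩
  rintro _ ⟨p, rfl⟩
  have h := hK.dist_le_mul p.1 p.2
  rw [Real.dist_eq] at h
  exact div_le_of_le_mul₀ dist_nonneg K.2 h

theorem norm_nonneg' (f : Lip0 M x₀) : 0 ≤ ‖f‖ := by
  rw [norm_def]
  exact Real.iSup_nonneg fun p => div_nonneg (abs_nonneg _) dist_nonneg

theorem le_norm (f : Lip0 M x₀) (x y : M) : |f.fn x - f.fn y| ≤ ‖f‖ * dist x y := by
  rcases eq_or_ne x y with rfl | hne
  · simp
  · have h : |f.fn x - f.fn y| / dist x y ≤ ‖f‖ := le_ciSup (bdd f) (x, y)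
    exact (div_le_iff₀ (dist_pos.2 hne)).1 h

theorem norm_le {f : Lip0 M x₀} {C : ℝ} (hC : 0 ≤ C)
    (h : ∀ x y, |f.fn x - f.fn y| ≤ C * dist x y) : ‖f‖ ≤ C := by
  rw [norm_def]
  have : Nonempty (M × M) := ⟨(x₀, x₀)⟩
  exact ciSup_le fun p => div_le_of_le_mul₀ dist_nonneg hC (h p.1 p.2)

theorem core : NormedSpace.Core ℝ (Lip0 M x₀) where
  norm_nonneg := norm_nonneg'
  norm_smul c f := by
    apply le_antisymm
    · refine norm_le (mul_nonneg (norm_nonneg c) (norm_nonneg' f)) fun x y => ?_
      rw [fn_smul, fn_smul, ← mul_sub, abs_mul, mul_assoc]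
      exact mul_le_mul_of_nonneg_left (le_norm f x y) (abs_nonneg c)
    · rcases eq_or_ne c 0 with rfl | hc
      · rw [norm_zero, zero_mul]
        exact norm_nonneg' _
      · have hcn : 0 < ‖c‖ := norm_pos_iff.2 hc
        rw [← le_div_iff₀' hcn]
        refine norm_le (div_nonneg (norm_nonneg' _) hcn.le) fun x y => ?_
        have h := le_norm (c • f) x y
        rw [fn_smul, fn_smul, ← mul_sub, abs_mul] at h
        rw [div_mul_eq_mul_div, le_div_iff₀' hcn]
        exact h
  norm_triangle f g := by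
    refine norm_le (add_nonneg (norm_nonneg' f) (norm_nonneg' g)) fun x y => ?_
    rw [fn_add, fn_add, add_mul]
    calc |f.fn x + g.fn x - (f.fn y + g.fn y)| = |(f.fn x - f.fn y) + (g.fn x - g.fn y)| := by
          congr 1; ring
      _ ≤ |f.fn x - f.fn y| + |g.fn x - g.fn y| := abs_add_le _ _
      _ ≤ _ := add_le_add (le_norm f x y) (le_norm g x y)
  norm_eq_zero_iff f := by
    constructor
    · intro h
      refine fn_ext fun x => ?_
      have h1 := le_norm f x x₀
      rw [h, zero_mul, fn_base, sub_zero] at h1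
      rw [fn_zero]
      exact abs_eq_zero.1 (le_antisymm h1 (abs_nonneg _))
    · rintro rfl
      refine le_antisymm (norm_le le_rfl fun x y => ?_) (norm_nonneg' _)
      simp [fn_zero]

noncomputable instance : NormedAddCommGroup (Lip0 M x₀) := NormedAddCommGroup.ofCore core
noncomputable instance : NormedSpace ℝ (Lip0 M x₀) := NormedSpace.ofCore core

variable (x₀)

/-- the evaluation `δ_x(f) = f(x)`, an element of the dual space of `Lip₀(M)` -/
noncomputable def delta (x : M) : Lip0 M x₀ →L[ℝ] ℝ :=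
  LinearMap.mkContinuous
    { toFun := fun f => f.fn x
      map_add' := fun f g => fn_add f g x
      map_smul' := fun c f => fn_smul c f x } (dist x x₀) fun f => by
        have h := le_norm f x x₀
        rw [fn_base, sub_zero, mul_comm] at h
        exact h

variable (M)

/-- the closed linear span of the evaluations in `Lip₀(M)*` -/
noncomputable def freeSub : Submodule ℝ (Lip0 M x₀ →L[ℝ] ℝ) :=
  (Submodule.span ℝ (Set.range (delta x₀ : M → (Lip0 M x₀ →L[ℝ] ℝ)))).topologicalClosure

/-- the Lipschitz-free space `F(M)`: the closed linear span of the evaluations in `Lip₀(M)*`, with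
the norm of the dual space -/
def LipFree : Type := ↥(freeSub M x₀)

noncomputable instance : NormedAddCommGroup (LipFree M x₀) := (freeSub M x₀).normedAddCommGroup
noncomputable instance : NormedSpace ℝ (LipFree M x₀) := (freeSub M x₀).normedSpace

/-- the `ℓ₁`-sum of countably many copies of `X` -/
def L1Sum (X : Type) [NormedAddCommGroup X] [NormedSpace ℝ X] : Type := ↥(lp (fun _ : ℕ => X) 1)

noncomputable instance (X : Type) [NormedAddCommGroup X] [NormedSpace ℝ X] :
    NormedAddCommGroup (L1Sum X) := lp.normedAddCommGroup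
noncomputable instance (X : Type) [NormedAddCommGroup X] [NormedSpace ℝ X] :
    NormedSpace ℝ (L1Sum X) := lp.instNormedSpace

/-- there is a linear isomorphism `X → Y` which is continuous in both directions -/
def Isomorphic (X Y : Type) [NormedAddCommGroup X] [NormedSpace ℝ X] [NormedAddCommGroup Y]
    [NormedSpace ℝ Y] : Prop := Nonempty (X ≃L[ℝ] Y)

/-- `Y` is isomorphic to a complemented subspace of `X`: there are bounded linear maps
`S : Y → X` and `T : X → Y` with `T ∘ S = id` -/
def EmbedsComplemented (Y X : Type) [NormedAddCommGroup Y] [NormedSpace ℝ Y]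
    [NormedAddCommGroup X] [NormedSpace ℝ X] : Prop :=
  ∃ (S : Y →L[ℝ] X) (T : X →L[ℝ] Y), ∀ y, T (S y) = y

end defs

/-- a Banach space with the universal property is the Lipschitz-free space -/
theorem iso_of_universal {M : Type} [MetricSpace M] (x₀ : M) {X : Type} [NormedAddCommGroup X]
    [NormedSpace ℝ X] [CompleteSpace X] (δ : M → X) (h0 : δ x₀ = 0) (hL : LipschitzWith 1 δ)
    (hd : Dense ((Submodule.span ℝ (Set.range δ) : Submodule ℝ X) : Set X))
    (hext : ∀ (f : M → ℝ) (L : ℝ≥0), LipschitzWith L f → f x₀ = 0 →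
      ∃ φ : X →L[ℝ] ℝ, ‖φ‖ ≤ (L : ℝ) ∧ ∀ x : M, φ (δ x) = f x) :
    Nonempty (X ≃ₗᵢ[ℝ] LipFree M x₀) := by
  have huniq : ∀ φ ψ : X →L[ℝ] ℝ, (∀ x, φ (δ x) = ψ (δ x)) → φ = ψ := by
    intro φ ψ h
    have h1 : Set.EqOn φ ψ ((Submodule.span ℝ (Set.range δ) : Submodule ℝ X) : Set X) := by
      intro v hv
      refine Submodule.span_induction (p := fun v _ => φ v = ψ v) ?_ ?_ ?_ ?_ hv
      · rintro _ ⟨x, rfl⟩; exact h x
      · simp
      · intro a b _ _ ha hb; rw [map_add, map_add, ha, hb]
      · intro c a _ ha; rw [map_smul, map_smul, ha]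
    exact DFunLike.coe_injective (Continuous.ext_on hd φ.continuous ψ.continuous h1)
  have hex : ∀ f : Lip0 M x₀, ∃ φ : X →L[ℝ] ℝ, ‖φ‖ ≤ ‖f‖ ∧ ∀ x : M, φ (δ x) = f.fn x := by
    intro f
    refine hext f.fn ⟨‖f‖, norm_nonneg f⟩ (LipschitzWith.of_dist_le_mul fun x y => ?_) (fn_base f)
    rw [Real.dist_eq]
    exact le_norm f x y
  choose φ hφ1 hφ2 using hex
  have hadd : ∀ f g, φ (f + g) = φ f + φ g := by
    intro f g
    refine huniq _ _ fun x => ?_
    rw [hφ2, add_apply, hφ2, hφ2, fn_add]
  have hsmul : ∀ (c : ℝ) f, φ (c • f) = c • φ f := by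
    intro c f
    refine huniq _ _ fun x => ?_
    rw [hφ2, smul_apply, hφ2, fn_smul, smul_eq_mul]
  have hb : ∀ (v : X) (f : Lip0 M x₀), ‖φ f v‖ ≤ ‖v‖ * ‖f‖ := by
    intro v f
    rw [mul_comm]
    exact (φ f).le_of_opNorm_le (hφ1 f) v
  let B0 : X → (Lip0 M x₀ →L[ℝ] ℝ) := fun v => LinearMap.mkContinuous
    { toFun := fun f => φ f v
      map_add' := fun f g => by rw [hadd]; rfl
      map_smul' := fun c f => by rw [hsmul]; rfl } ‖v‖ (hb v)
  have hB0 : ∀ v f, B0 v f = φ f v := fun _ _ => rfl
  let B : X →ₗᵢ[ℝ] (Lip0 M x₀ →L[ℝ] ℝ) :=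
    { toFun := B0
      map_add' := fun v w => by ext f; rw [add_apply, hB0, hB0, hB0, map_add]
      map_smul' := fun c v => by
        ext f
        rw [RingHom.id_apply, smul_apply, hB0, hB0, map_smul]
      norm_map' := by
        intro v
        change ‖B0 v‖ = ‖v‖
        apply le_antisymm
        · exact LinearMap.mkContinuous_norm_le _ (norm_nonneg v) _
        · obtain ⟨g, hg1, hg2⟩ := exists_dual_vector'' ℝ v
          have hg2' : g v = ‖v‖ := by simpa using hg2
          have hgL : ∀ x y, |g (δ x) - g (δ y)| ≤ 1 * dist x y := by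
            intro x y
            rw [← map_sub, ← Real.norm_eq_abs]
            refine (g.le_opNorm _).trans (mul_le_mul hg1 ?_ (norm_nonneg _) zero_le_one)
            rw [← dist_eq_norm]
            simpa using hL.dist_le_mul x y
          let f : Lip0 M x₀ := (⟨fun x => g (δ x), by
            change g (δ x₀) = 0
            rw [h0, map_zero], 1,
            LipschitzWith.of_dist_le_mul fun x y => by
              rw [Real.dist_eq]; simpa using hgL x y⟩ : ↥(lip0 M x₀))
          have hf : ‖f‖ ≤ 1 := norm_le zero_le_one hgL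
          have hφf : φ f = g := huniq _ _ fun x => by rw [hφ2]; rfl
          have h1 : ‖v‖ = B0 v f := by rw [hB0, hφf, hg2']
          calc ‖v‖ = B0 v f := h1
            _ ≤ ‖B0 v f‖ := le_abs_self _
            _ ≤ ‖B0 v‖ * ‖f‖ := (B0 v).le_opNorm f
            _ ≤ ‖B0 v‖ * 1 := mul_le_mul_of_nonneg_left hf (norm_nonneg _)
            _ = ‖B0 v‖ := mul_one _ }
  have hBδ : ∀ x, B (δ x) = delta x₀ x := by
    intro x
    ext f
    change φ f (δ x) = f.fn x
    exact hφ2 f x
  have hr : LinearMap.range B.toLinearMap = freeSub M x₀ := by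
    have himg : (Submodule.span ℝ (Set.range δ)).map B.toLinearMap =
        Submodule.span ℝ (Set.range (delta x₀ : M → (Lip0 M x₀ →L[ℝ] ℝ))) := by
      rw [Submodule.map_span, ← Set.range_comp]
      congr 1
      ext z
      constructor
      · rintro ⟨x, rfl⟩; exact ⟨x, (hBδ x).symm⟩
      · rintro ⟨x, rfl⟩; exact ⟨x, hBδ x⟩
    have hcl : IsClosed (Set.range B) := B.isometry.isClosedEmbedding.isClosed_range
    apply le_antisymm
    · rintro _ ⟨v, rfl⟩
      have hv : v ∈ closure ((Submodule.span ℝ (Set.range δ) : Submodule ℝ X) : Set X) := hd v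
      have h2 : B v ∈ closure (B '' ((Submodule.span ℝ (Set.range δ) : Submodule ℝ X) : Set X)) :=
        image_closure_subset_closure_image B.continuous ⟨v, hv, rfl⟩
      have h3 : (B '' ((Submodule.span ℝ (Set.range δ) : Submodule ℝ X) : Set X)) =
          ((Submodule.span ℝ (Set.range (delta x₀ : M → (Lip0 M x₀ →L[ℝ] ℝ))) :
            Submodule ℝ (Lip0 M x₀ →L[ℝ] ℝ)) : Set (Lip0 M x₀ →L[ℝ] ℝ)) := by
        rw [← himg]; rfl
      rw [h3] at h2
      exact h2
    · refine Submodule.topologicalClosure_minimal _ ?_ ?_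
      · rw [← himg]
        rintro _ ⟨v, _, rfl⟩
        exact ⟨v, rfl⟩
      · have : ((LinearMap.range B.toLinearMap : Submodule ℝ (Lip0 M x₀ →L[ℝ] ℝ)) :
            Set (Lip0 M x₀ →L[ℝ] ℝ)) = Set.range B := by ext z; rfl
        rw [this]
        exact hcl
  exact ⟨B.equivRange.trans (LinearIsometryEquiv.ofEq _ _ hr)⟩

open Work.MP_8329b3_an in
/-- the points of the space have distance at least `1` -/
theorem SS_sep (G : ℕ → GData) (hG : ∀ n, (G n).Good) (x y : SS G hG) (hxy : x ≠ y) :
    1 ≤ dist x y := by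
  have hge : ∀ n (a b : Fin (G n).N), a ≠ b → 1 ≤ ‖de (G n) a b‖ := by
    intro n a b hab
    have hD : (1 : ℝ) ≤ (G n).D := by exact_mod_cast (hG n).hD
    have h := de_norm_ge (G n) (hG n).hD (fun z => if z = a then 1 else 0)
      (fun e => by split_ifs <;> norm_num)
      (fun p q => le_trans (by split_ifs <;> norm_num) hD) a b
    simpa [hab.symm] using h
  obtain ⟨_, ⟨n, a⟩, rfl⟩ := x
  obtain ⟨_, ⟨m, b⟩, rfl⟩ := y
  rw [Subtype.dist_eq, dist_eq_norm]
  change 1 ≤ ‖pt G hG ⟨n, a⟩ - pt G hG ⟨m, b⟩‖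
  have hne : pt G hG ⟨n, a⟩ ≠ pt G hG ⟨m, b⟩ := fun h => hxy (Subtype.ext h)
  rcases eq_or_ne n m with rfl | hnm
  · rw [pt_sub_norm]
    refine hge n a b ?_
    rintro rfl
    exact hne rfl
  · -- different pieces
    have key : ∀ (w : XX G) k, ‖(w : ∀ k, FS (G k)) k‖ ≤ ‖w‖ := fun w k =>
      le_hasSum (lp1_hasSum w) k (fun _ _ => norm_nonneg _)
    have hn : ((pt G hG ⟨n, a⟩ - pt G hG ⟨m, b⟩ : XX G) : ∀ k, FS (G k)) n =
        de (G n) a (bv G hG n) := by
      rw [lp.coeFn_sub, Pi.sub_apply]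
      have h1 : (pt G hG ⟨n, a⟩ : ∀ k, FS (G k)) n = de (G n) a (bv G hG n) :=
        lp.single_apply_self (E := fun n => FS (G n)) 1 n _
      have h2 : (pt G hG ⟨m, b⟩ : ∀ k, FS (G k)) n = 0 :=
        lp.single_apply_ne (E := fun n => FS (G n)) 1 m _ hnm
      rw [h1, h2, sub_zero]
    have hm : ((pt G hG ⟨n, a⟩ - pt G hG ⟨m, b⟩ : XX G) : ∀ k, FS (G k)) m =
        - de (G m) b (bv G hG m) := by
      rw [lp.coeFn_sub, Pi.sub_apply]
      have h1 : (pt G hG ⟨m, b⟩ : ∀ k, FS (G k)) m = de (G m) b (bv G hG m) :=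
        lp.single_apply_self (E := fun n => FS (G n)) 1 m _
      have h2 : (pt G hG ⟨n, a⟩ : ∀ k, FS (G k)) m = 0 :=
        lp.single_apply_ne (E := fun n => FS (G n)) 1 n _ hnm.symm
      rw [h1, h2, zero_sub]
    by_cases ha : a = bv G hG n
    · by_cases hb : b = bv G hG m
      · exfalso
        apply hne
        rw [ha, hb, pt_base, pt_base]
      · refine le_trans (hge m b _ hb) ?_
        have := key (pt G hG ⟨n, a⟩ - pt G hG ⟨m, b⟩) m
        rw [hm, norm_neg] at this
        exact this
    · refine le_trans (hge n a _ ha) ?_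
      have := key (pt G hG ⟨n, a⟩ - pt G hG ⟨m, b⟩) n
      rw [hn] at this
      exact this

open Work.MP_8329b3_an in
/-- **Theorem.** There is a countable infinite metric space `M`, any two different points of which
have distance at least `1`, such that for every base point `x₀` the Lipschitz-free space `F(M)` is
not isomorphic to the `ℓ₁`-sum of countably many copies of itself, and there are not even bounded
linear maps `S : ℓ₁(F(M)) → F(M)` and `T : F(M) → ℓ₁(F(M))` with `T ∘ S = id`. -/
theorem result : ∃ (M : Type) (_ : MetricSpace M), Infinite M ∧ Countable M ∧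
    (∀ x y : M, x ≠ y → 1 ≤ dist x y) ∧
    ∀ x₀ : M, ¬ Isomorphic (LipFree M x₀) (L1Sum (LipFree M x₀)) ∧
      ¬ EmbedsComplemented (L1Sum (LipFree M x₀)) (LipFree M x₀) := by
  obtain ⟨G, hG, hcov, hD⟩ := exists_seq
  have : ∀ n, CompleteSpace (FS (G n)) := fun n => FiniteDimensional.complete ℝ _
  have := SS_infinite G hG
  refine ⟨SS G hG, inferInstance, inferInstance, ?_, SS_sep G hG, ?_⟩
  · exact (Set.countable_range (pt G hG)).to_subtype
  · intro x₀
    -- the universal property with the base point `x₀`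
    have hS : Submodule.span ℝ (Set.range fun x : SS G hG => (x : XX G) - (x₀ : XX G)) =
        Submodule.span ℝ (Set.range (Subtype.val : SS G hG → XX G)) := by
      apply le_antisymm
      · rw [Submodule.span_le]
        rintro _ ⟨x, rfl⟩
        exact Submodule.sub_mem _ (Submodule.subset_span ⟨x, rfl⟩) (Submodule.subset_span ⟨x₀, rfl⟩)
      · have hx0 : (x₀ : XX G) ∈
            Submodule.span ℝ (Set.range fun x : SS G hG => (x : XX G) - (x₀ : XX G)) := by
          have h : (0 : XX G) - (x₀ : XX G) ∈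
              Submodule.span ℝ (Set.range fun x : SS G hG => (x : XX G) - (x₀ : XX G)) :=
            Submodule.subset_span ⟨⟨0, zero_mem G hG⟩, rfl⟩
          rw [zero_sub] at h
          exact (Submodule.neg_mem_iff _).1 h
        rw [Submodule.span_le]
        rintro _ ⟨x, rfl⟩
        have h : (x : XX G) - (x₀ : XX G) ∈
            Submodule.span ℝ (Set.range fun x : SS G hG => (x : XX G) - (x₀ : XX G)) :=
          Submodule.subset_span ⟨x, rfl⟩
        have h2 := Submodule.add_mem _ h hx0
        rw [sub_add_cancel] at h2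
        exact h2
    obtain ⟨e⟩ := iso_of_universal x₀ (fun x : SS G hG => (x : XX G) - (x₀ : XX G)) (sub_self _)
      (LipschitzWith.of_dist_le_mul fun x y => by
        rw [dist_sub_right, NNReal.coe_one, one_mul]; exact le_refl _)
      (by rw [hS]; exact SS_dense G hG)
      (by
        intro f L hf hf0
        obtain ⟨φ, h1, h2⟩ := SS_ext G hG (fun x => f x - f ⟨0, zero_mem G hG⟩) L
          (LipschitzWith.of_dist_le_mul fun x y => by
            rw [dist_sub_right]; exact hf.dist_le_mul x y) (sub_self _)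
        refine ⟨φ, h1, fun x => ?_⟩
        rw [map_sub, h2, h2, hf0]
        ring)
    have key : ¬ ∃ (S : lp (fun _ : ℕ => LipFree (SS G hG) x₀) 1 →L[ℝ] LipFree (SS G hG) x₀)
        (T : LipFree (SS G hG) x₀ →L[ℝ] lp (fun _ : ℕ => LipFree (SS G hG) x₀) 1),
        ∀ y, T (S y) = y := by
      rintro ⟨S, T, hTS⟩
      let eL : XX G →L[ℝ] LipFree (SS G hG) x₀ := e.toContinuousLinearEquiv.toContinuousLinearMap
      let eS : LipFree (SS G hG) x₀ →L[ℝ] XX G :=
        e.symm.toContinuousLinearEquiv.toContinuousLinearMap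
      refine no_iso_abs G hG hcov hD
        (X := XX G) (Y := lp (fun _ : ℕ => LipFree (SS G hG) x₀) 1)
        (fun k => lp.evalCLM ℝ (fun n => FS (G n)) 1 k)
        (fun k => lp.singleContinuousLinearMap ℝ (fun n => FS (G n)) 1 k)
        (fun i => eS.comp (lp.evalCLM ℝ (fun _ : ℕ => LipFree (SS G hG) x₀) 1 i))
        (fun i => (lp.singleContinuousLinearMap ℝ (fun _ : ℕ => LipFree (SS G hG) x₀) 1 i).comp eL)
        (fun w => lp1_hasSum w)
        (fun w => lp.hasSum_single (p := 1) ENNReal.one_ne_top w)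
        (fun k v => lp.norm_single (E := fun n => FS (G n)) (p := 1) one_pos k v)
        (fun k v => lp.single_apply_self (E := fun n => FS (G n)) 1 k v)
        ?_ ?_ ?_ (T.comp eL) (eS.comp S) ?_
      · intro w
        have h := lp1_hasSum w
        refine h.congr_fun ?_
        intro k
        exact e.symm.norm_map _
      · intro k w
        exact (lp.norm_single (E := fun _ : ℕ => LipFree (SS G hG) x₀) (p := 1) one_pos k
          (e w)).trans (e.norm_map w)
      · intro k w
        change e.symm ((lp.single (E := fun _ : ℕ => LipFree (SS G hG) x₀) 1 k (e w) :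
          ∀ _ : ℕ, LipFree (SS G hG) x₀) k) = w
        rw [lp.single_apply_self]
        exact e.symm_apply_apply w
      · intro y
        change T (e (e.symm (S y))) = y
        rw [e.apply_symm_apply, hTS]
    refine ⟨?_, key⟩
    rintro ⟨Φ⟩
    exact key ⟨Φ.symm.toContinuousLinearMap, Φ.toContinuousLinearMap,
      fun y => Φ.apply_symm_apply y⟩

end Pool.Agent.Results.MP_8329b3_an.UniformlyDiscrete
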